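import Pool.Agent.X214.Aron.Tree

/-!
The single-selection game on k-covers is undetermined for a Hausdorff space built in ZFC from an
Aronszajn tree.

The points are the nodes of a coherent Aronszajn tree.  A set is open when with each node `t` it
contains, up to countably many nodes, all nodes of the cone of an initial segment of `t` (a proper
one, if `t` has limit level) except those above finitely many immediate successors of `t`.
-/

namespace Pool.Agent.Results.MP_367a9a_gt.AronszajnUndetermined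

open Set Topology

open Pool.Agent.Helper330.DPK.Coh (W countable_Iic countable_Iio)

open Pool.Agent.X214.Aron

/-- An open cover such that every compact set lies in a member. -/
def IsKCover {X : Type} [TopologicalSpace X] (𝒰 : Set (Set X)) : Prop :=
  (∀ U ∈ 𝒰, IsOpen U) ∧ ⋃₀ 𝒰 = univ ∧ ∀ K : Set X, IsCompact K → ∃ U ∈ 𝒰, K ⊆ U

/-- P1 has a winning strategy in the single-selection game on k-covers: a map from the finite
sequences of moves of P2 to k-covers such that no sequence of answers of P2 is a k-cover. -/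
def P1Wins (X : Type) [TopologicalSpace X] : Prop :=
  ∃ σ : List (Set X) → Set (Set X), (∀ h, IsKCover (σ h)) ∧
    ∀ U : ℕ → Set X, (∀ n, U n ∈ σ ((List.range n).map U)) → ¬ IsKCover (range U)

/-- P2 has a winning strategy in the single-selection game on k-covers: a map from the finite
sequences of moves of P1 to answers such that the answers are legal and form a k-cover. -/
def P2Wins (X : Type) [TopologicalSpace X] : Prop :=
  ∃ σ : List (Set (Set X)) → Set X, ∀ 𝒰 : ℕ → Set (Set X), (∀ n, IsKCover (𝒰 n)) →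
    (∀ n, σ ((List.range (n + 1)).map 𝒰) ∈ 𝒰 n) ∧
      IsKCover (range fun n => σ ((List.range (n + 1)).map 𝒰))

/-! ### P2 does not win when the points are few -/

theorem not_p2Wins {X : Type} [TopologicalSpace X] [T1Space X]
    (hcomp : ∀ K : Set X, IsCompact K → K.Finite) (hG : ∀ x : X, IsGδ ({x} : Set X))
    (hunc : ¬ (univ : Set X).Countable) : ¬ P2Wins X := by
  classical
  rintro ⟨σ, hσ⟩
  have hne : IsKCover ({univ} : Set (Set X)) := by
    refine ⟨?_, ?_, ?_⟩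
    · rintro U rfl
      exact isOpen_univ
    · simp
    · intro K _
      exact ⟨univ, rfl, subset_univ _⟩
  -- legality for finite positions
  have hleg : ∀ (h : List (Set (Set X))) (𝒰 : Set (Set X)), (∀ V ∈ h, IsKCover V) → IsKCover 𝒰 →
      σ (h ++ [𝒰]) ∈ 𝒰 := by
    intro h 𝒰 hh h𝒰
    set S : ℕ → Set (Set X) := fun n => (h ++ [𝒰]).getD n {univ} with hS
    have hSk : ∀ n, IsKCover (S n) := by
      intro n
      by_cases hn : n < (h ++ [𝒰]).length
      · have h1 : S n = (h ++ [𝒰])[n] := List.getD_eq_getElem _ _ hn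
        rw [h1]
        have h2 := List.getElem_mem hn
        rcases List.mem_append.1 h2 with h3 | h3
        · exact hh _ h3
        · rw [List.mem_singleton.1 h3]
          exact h𝒰
      · have h1 : S n = {univ} := List.getD_eq_default _ _ (not_lt.1 hn)
        rw [h1]
        exact hne
    have h1 := (hσ S hSk).1 h.length
    have h2 : (List.range (h.length + 1)).map S = h ++ [𝒰] := by
      apply List.ext_getElem
      · simp
      · intro n h3 h4
        simp only [List.getElem_map, List.getElem_range]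
        exact List.getD_eq_getElem _ _ h4
    rw [h2] at h1
    have h3 : S h.length = 𝒰 := by
      have h4 : h.length < (h ++ [𝒰]).length := by simp
      have h5 : S h.length = (h ++ [𝒰])[h.length] := List.getD_eq_getElem _ _ h4
      rw [h5]
      simp
    rw [h3] at h1
    exact h1
  -- at each position there is a finite set whose neighbourhoods are all possible answers
  have hpos : ∀ h : List (Set (Set X)), ∃ F : Set X, F.Finite ∧ ((∀ V ∈ h, IsKCover V) →
      ∀ V, IsOpen V → F ⊆ V → ∃ 𝒰, IsKCover 𝒰 ∧ σ (h ++ [𝒰]) = V) := by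
    intro h
    by_cases hh : ∀ V ∈ h, IsKCover V
    swap
    · exact ⟨∅, finite_empty, fun h2 => absurd h2 hh⟩
    by_contra hcon
    push Not at hcon
    have hch : ∀ F : Set X, F.Finite → ∃ V, IsOpen V ∧ F ⊆ V ∧
        ∀ 𝒰, IsKCover 𝒰 → σ (h ++ [𝒰]) ≠ V := fun F hF => (hcon F hF).2
    have hk : IsKCover {V | IsOpen V ∧ ∀ 𝒰, IsKCover 𝒰 → σ (h ++ [𝒰]) ≠ V} := by
      refine ⟨fun U hU => hU.1, ?_, ?_⟩
      · rw [sUnion_eq_univ_iff]
        intro x
        obtain ⟨V, h1, h2, h3⟩ := hch {x} (finite_singleton x)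
        exact ⟨V, ⟨h1, h3⟩, h2 rfl⟩
      · intro K hK
        obtain ⟨V, h1, h2, h3⟩ := hch K (hcomp K hK)
        exact ⟨V, ⟨h1, h3⟩, h2⟩
    exact (hleg h _ hh hk).2 _ hk rfl
  choose F hF hFV using hpos
  have hGF : ∀ h, ∃ V : ℕ → Set X, (∀ n, IsOpen (V n)) ∧ F h = ⋂ n, V n := by
    intro h
    have h1 : IsGδ (⋃ x ∈ F h, {x}) := IsGδ.biUnion (hF h) (fun x _ => hG x)
    rw [biUnion_of_singleton] at h1
    exact isGδ_iff_eq_iInter_nat.1 h1
  choose V hVo hVF using hGF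
  have hU : ∀ (h : List (Set (Set X))) (j : ℕ), ∃ 𝒰, (∀ V ∈ h, IsKCover V) →
      IsKCover 𝒰 ∧ σ (h ++ [𝒰]) = V h j := by
    intro h j
    by_cases hh : ∀ V ∈ h, IsKCover V
    · have h1 : F h ⊆ V h j := by
        rw [hVF h]
        exact iInter_subset _ j
      obtain ⟨𝒰, h2⟩ := hFV h hh (V h j) (hVo h j) h1
      exact ⟨𝒰, fun _ => h2⟩
    · exact ⟨∅, fun h2 => absurd h2 hh⟩
  choose 𝒰 h𝒰 using hU
  -- the countable tree of positions
  set H : List ℕ → List (Set (Set X)) := fun p => List.rec [] (fun j _ h => h ++ [𝒰 h j]) p with hH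
  have hHs : ∀ j p, H (j :: p) = H p ++ [𝒰 (H p) j] := fun j p => rfl
  have hHk : ∀ p, ∀ V ∈ H p, IsKCover V := by
    intro p
    induction p with
    | nil =>
      intro V hV
      exact absurd hV (by simp [hH])
    | cons j p ih =>
      intro V hV
      rw [hHs] at hV
      rcases List.mem_append.1 hV with h1 | h1
      · exact ih V h1
      · rw [List.mem_singleton.1 h1]
        exact (h𝒰 _ j ih).1
  obtain ⟨x, hx⟩ : ∃ x, x ∉ ⋃ p, F (H p) := by
    by_contra h
    push Not at h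
    exact hunc ((countable_iUnion (fun p => (hF (H p)).countable)).mono (fun x _ => h x))
  have hJ : ∀ p, ∃ j, x ∉ V (H p) j := by
    intro p
    by_contra h
    push Not at h
    apply hx
    refine mem_iUnion.2 ⟨p, ?_⟩
    rw [hVF]
    exact mem_iInter.2 h
  choose J hJ using hJ
  set P : ℕ → List ℕ := fun n => Nat.rec [] (fun _ p => J p :: p) n with hP
  have hPs : ∀ n, P (n + 1) = J (P n) :: P n := fun n => rfl
  set S : ℕ → Set (Set X) := fun n => 𝒰 (H (P n)) (J (P n)) with hS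
  have hlist : ∀ n, (List.range n).map S = H (P n) := by
    intro n
    induction n with
    | zero => rfl
    | succ n ih =>
      rw [List.range_succ, List.map_append, ih, hPs, hHs]
      rfl
  have hSk : ∀ n, IsKCover (S n) := fun n => (h𝒰 _ _ (hHk _)).1
  have h1 : x ∈ ⋃₀ (range fun n => σ ((List.range (n + 1)).map S)) := by
    rw [(hσ S hSk).2.2.1]
    exact mem_univ x
  obtain ⟨_, ⟨n, rfl⟩, hn⟩ := h1
  apply hJ (P n)
  have h2 : σ ((List.range (n + 1)).map S) = V (H (P n)) (J (P n)) := by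
    rw [hlist, hPs, hHs]
    exact (h𝒰 _ _ (hHk _)).2
  simp only at hn
  rw [h2] at hn
  exact hn

/-! ### P1 does not win when countable families have countably many atoms -/

theorem not_p1Wins {X : Type} [TopologicalSpace X]
    (hcomp : ∀ K : Set X, IsCompact K → K.Finite)
    (Nice : Set X → Prop)
    (hatoms : ∀ V : ℕ → Set X, (∀ n, Nice (V n)) → ∃ (A : Set X) (a : X → X), A.Countable ∧
      (∀ x, a x ∈ A) ∧ ∀ n x, x ∈ V n ↔ a x ∈ V n)
    (hlind : ∀ 𝒰 : Set (Set X), IsKCover 𝒰 → ∃ V U : ℕ → Set X,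
      (∀ n, Nice (V n) ∧ V n ⊆ U n ∧ U n ∈ 𝒰) ∧ ∀ E : Set X, E.Finite → ∃ n, E ⊆ V n) :
    ¬ P1Wins X := by
  classical
  rintro ⟨σ, hσ, hwin⟩
  choose V U hVU hE using fun h => hlind (σ h) (hσ h)
  set H : List ℕ → List (Set X) := fun p => List.rec [] (fun j _ h => h ++ [U h j]) p with hH
  have hHs : ∀ j p, H (j :: p) = H p ++ [U (H p) j] := fun j p => rfl
  obtain ⟨g, hg⟩ := exists_surjective_nat (List ℕ × ℕ)
  obtain ⟨A, a, hA, haA, ha⟩ := hatoms (fun n => V (H (g n).1) (g n).2) (fun n => (hVU _ _).1)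
  have ha' : ∀ p k x, x ∈ V (H p) k ↔ a x ∈ V (H p) k := by
    intro p k x
    obtain ⟨n, hn⟩ := hg (p, k)
    have := ha n x
    simp only [hn] at this
    exact this
  have : Countable A := hA.to_subtype
  obtain ⟨e, he⟩ := exists_surjective_nat (Finset A)
  have hJ : ∀ p : List ℕ, ∃ j, (Subtype.val '' (e p.length : Set A) : Set X) ⊆ V (H p) j :=
    fun p => hE (H p) _ ((e p.length).finite_toSet.image _)
  choose J hJ using hJ
  set P : ℕ → List ℕ := fun n => Nat.rec [] (fun _ p => J p :: p) n with hP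
  have hPs : ∀ n, P (n + 1) = J (P n) :: P n := fun n => rfl
  have hPl : ∀ n, (P n).length = n := by
    intro n
    induction n with
    | zero => rfl
    | succ n ih => rw [hPs, List.length_cons, ih]
  set S : ℕ → Set X := fun n => U (H (P n)) (J (P n)) with hS
  have hlist : ∀ n, (List.range n).map S = H (P n) := by
    intro n
    induction n with
    | zero => rfl
    | succ n ih =>
      rw [List.range_succ, List.map_append, ih, hPs, hHs]
      rfl
  have hcov : ∀ E : Set X, E.Finite → ∃ n, E ⊆ S n := by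
    intro E hEf
    have h1 : ((fun x => (⟨a x, haA x⟩ : A)) '' E).Finite := hEf.image _
    obtain ⟨n, hn⟩ := he h1.toFinset
    refine ⟨n, ?_⟩
    intro x hx
    apply (hVU (H (P n)) (J (P n))).2.1
    rw [ha']
    apply hJ (P n)
    rw [hPl, hn]
    exact ⟨⟨a x, haA x⟩, by simpa using ⟨x, hx, rfl⟩, rfl⟩
  refine hwin S ?_ ?_
  · intro n
    rw [hlist]
    exact (hVU _ _).2.2
  · refine ⟨?_, ?_, ?_⟩
    · rintro _ ⟨n, rfl⟩
      exact (hσ (H (P n))).1 _ (hVU _ _).2.2
    · rw [sUnion_eq_univ_iff]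
      intro x
      obtain ⟨n, hn⟩ := hcov {x} (finite_singleton x)
      exact ⟨S n, ⟨n, rfl⟩, hn rfl⟩
    · intro K hK
      obtain ⟨n, hn⟩ := hcov K (hcomp K hK)
      exact ⟨S n, ⟨n, rfl⟩, hn⟩

/-! ### The space -/

/-- The basic set given by a node `t`, a level `ζ` and a number `k`: the nodes that agree with `t`
below `ζ` and do not lie above one of the first `k` immediate successors of `t`. -/
def NN (t : Nod) (ζ : W) (k : ℕ) : Set Nod :=
  {s | ζ ≤ s.lv ∧ Ag ζ t.f s.f ∧ ¬ (t.lv < s.lv ∧ Ag t.lv t.f s.f ∧ s.f t.lv < k)}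

/-- The levels allowed in the basic neighbourhoods of a node of level `α`. -/
def Adm (α ζ : W) : Prop := ζ ≤ α ∧ (ζ = α → ¬ Lim α)

lemma NN_mono (t : Nod) {ζ ζ' : W} {k k' : ℕ} (h : ζ ≤ ζ') (hk : k ≤ k') :
    NN t ζ' k' ⊆ NN t ζ k := by
  rintro s ⟨h1, h2, h3⟩
  exact ⟨h.trans h1, h2.mono h, fun h4 => h3 ⟨h4.1, h4.2.1, h4.2.2.trans_le hk⟩⟩

lemma Adm.max {α ζ ζ' : W} (h : Adm α ζ) (h' : Adm α ζ') : Adm α (max ζ ζ') := by
  rcases le_total ζ ζ' with h1 | h1
  · rw [max_eq_right h1]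
    exact h'
  · rw [max_eq_left h1]
    exact h

lemma exists_adm (α : W) : ∃ ζ, Adm α ζ := by
  by_cases h : Lim α
  · obtain ⟨β, hβ⟩ := h.1
    exact ⟨β, hβ.le, fun h2 => absurd h2 hβ.ne⟩
  · exact ⟨α, le_rfl, fun _ => h⟩

instance instTop : TopologicalSpace Nod where
  IsOpen O := ∀ t ∈ O, ∃ ζ, Adm t.lv ζ ∧ ∃ k, (NN t ζ k \ O).Countable
  isOpen_univ := by
    intro t _
    obtain ⟨ζ, hζ⟩ := exists_adm t.lv
    exact ⟨ζ, hζ, 0, countable_empty.mono (fun s hs => hs.2 (mem_univ s))⟩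
  isOpen_inter O P hO hP := by
    rintro t ⟨h1, h2⟩
    obtain ⟨ζ, hζ, k, hk⟩ := hO t h1
    obtain ⟨ζ', hζ', k', hk'⟩ := hP t h2
    refine ⟨max ζ ζ', hζ.max hζ', max k k', (hk.union hk').mono ?_⟩
    rintro s ⟨hs, hs2⟩
    by_cases h3 : s ∈ O
    · exact Or.inr ⟨NN_mono t (le_max_right _ _) (le_max_right _ _) hs, fun h4 => hs2 ⟨h3, h4⟩⟩
    · exact Or.inl ⟨NN_mono t (le_max_left _ _) (le_max_left _ _) hs, h3⟩
  isOpen_sUnion S hS := by
    rintro t ⟨O, hO, ht⟩
    obtain ⟨ζ, hζ, k, hk⟩ := hS O hO t ht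
    refine ⟨ζ, hζ, k, hk.mono ?_⟩
    rintro s ⟨hs, hs2⟩
    exact ⟨hs, fun h => hs2 ⟨O, hO, h⟩⟩

lemma isOpen_iff (O : Set Nod) : IsOpen O ↔
    ∀ t ∈ O, ∃ ζ, Adm t.lv ζ ∧ ∃ k, (NN t ζ k \ O).Countable := Iff.rfl

lemma isClosed_of_countable {C : Set Nod} (hC : C.Countable) : IsClosed C := by
  rw [← isOpen_compl_iff, isOpen_iff]
  intro t _
  obtain ⟨ζ, hζ⟩ := exists_adm t.lv
  exact ⟨ζ, hζ, 0, hC.mono (fun s hs => not_not.1 hs.2)⟩

instance : T1Space Nod where
  t1 x := isClosed_of_countable (countable_singleton x)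

lemma compact_finite {C : Set Nod} (hC : IsCompact C) : C.Finite := by
  by_contra hinf
  have hinf' : C.Infinite := hinf
  set f : ℕ → Nod := fun n => (hinf'.natEmbedding _ n : Nod) with hf
  have hfinj : Function.Injective f := by
    intro m n h
    exact (hinf'.natEmbedding _).injective (Subtype.ext h)
  have hfC : ∀ n, f n ∈ C := fun n => (hinf'.natEmbedding _ n).2
  obtain ⟨n, hn⟩ := hC.elim_directed_cover (fun n : ℕ => (f '' {k | n ≤ k})ᶜ)
    (by
      intro n
      refine (isClosed_of_countable ?_).isOpen_compl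
      exact (countable_range f).mono (image_subset_range _ _))
    (by
      intro t _
      by_cases ht : ∃ k, f k = t
      · obtain ⟨k, rfl⟩ := ht
        refine mem_iUnion.2 ⟨k + 1, ?_⟩
        rintro ⟨j, hj, h2⟩
        have := hfinj h2
        have h4 : k + 1 ≤ j := hj
        omega
      · refine mem_iUnion.2 ⟨0, ?_⟩
        rintro ⟨j, _, h2⟩
        exact ht ⟨j, h2⟩)
    (by
      apply directed_of_isDirected_le
      intro n m hnm
      apply compl_subset_compl.2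
      apply image_mono
      intro k hk
      exact le_trans hnm hk)
  exact hn (hfC n) ⟨n, le_refl n, rfl⟩

lemma adm_of_not_lim {α ζ : W} (h : ζ ≤ α) (hζ : ¬ Lim ζ) : Adm α ζ :=
  ⟨h, fun h2 => h2 ▸ hζ⟩

lemma open_NN (t : Nod) {ζ : W} (k : ℕ) (hζt : ζ ≤ t.lv) (hζ : ¬ Lim ζ) : IsOpen (NN t ζ k) := by
  rw [isOpen_iff]
  intro s hs
  have hz : ∀ (ζ' : W) (k' : ℕ), NN s ζ' k' ⊆ NN t ζ k → (NN s ζ' k' \ NN t ζ k).Countable := by
    intro ζ' k' h
    rw [sdiff_eq_empty.2 h]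
    exact countable_empty
  by_cases h1 : ∃ η, η < t.lv ∧ η < s.lv ∧ t.f η ≠ s.f η
  · obtain ⟨η, h2, h3, h4⟩ := h1
    have h5 : ¬ Lim (max ζ (sc η)) := by
      rcases le_total ζ (sc η) with h6 | h6
      · rw [max_eq_right h6]
        exact not_lim_sc η
      · rw [max_eq_left h6]
        exact hζ
    refine ⟨max ζ (sc η), adm_of_not_lim (max_le hs.1 (sc_le h3)) h5, 0, hz _ _ ?_⟩
    rintro r ⟨hr1, hr2, -⟩
    refine ⟨(le_max_left _ _).trans hr1, hs.2.1.trans (hr2.mono (le_max_left _ _)), ?_⟩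
    rintro ⟨-, h7, -⟩
    apply h4
    rw [h7 η h2, hr2 η ((lt_sc η).trans_le (le_max_right _ _))]
  push Not at h1
  rcases lt_trichotomy s.lv t.lv with h2 | h2 | h2
  · -- s is a proper initial segment of t
    refine ⟨ζ, adm_of_not_lim hs.1 hζ, t.f s.lv + 1, hz _ _ ?_⟩
    rintro r ⟨hr1, hr2, hr3⟩
    refine ⟨hr1, hs.2.1.trans hr2, ?_⟩
    rintro ⟨h3, h4, -⟩
    apply hr3
    refine ⟨h2.trans h3, ?_, ?_⟩
    · intro η hη
      rw [← h1 η (hη.trans h2) hη, h4 η (hη.trans h2)]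
    · rw [← h4 _ h2]
      exact Nat.lt_succ_self _
  · -- s = t
    have h3 : s = t := Nod.ext' h2 (fun η hη => (h1 η (h2 ▸ hη) hη).symm)
    subst h3
    exact ⟨ζ, adm_of_not_lim hζt hζ, k, hz _ _ subset_rfl⟩
  · -- s is a proper extension of t
    have h3 : Ag t.lv t.f s.f := fun η hη => h1 η hη (hη.trans h2)
    have h4 : ¬ s.f t.lv < k := fun h5 => hs.2.2 ⟨h2, h3, h5⟩
    have h5 : ¬ Lim (sc t.lv) := not_lim_sc _
    refine ⟨sc t.lv, adm_of_not_lim (sc_le h2) h5, 0, hz _ _ ?_⟩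
    rintro r ⟨hr1, hr2, -⟩
    have h6 : ζ ≤ sc t.lv := hζt.trans (lt_sc _).le
    refine ⟨h6.trans hr1, hs.2.1.trans (hr2.mono h6), ?_⟩
    rintro ⟨-, -, h7⟩
    apply h4
    rw [hr2 _ (lt_sc _)]
    exact h7

lemma isGδ_singleton' (t : Nod) : IsGδ ({t} : Set Nod) := by
  have h : ({t} : Set Nod) = ⋂ ζ ∈ {ζ | ζ ≤ t.lv ∧ ¬ Lim ζ}, ⋂ k : ℕ, NN t ζ k := by
    ext s
    rw [mem_singleton_iff]
    constructor
    · rintro rfl
      refine mem_iInter₂.2 (fun ζ hζ => mem_iInter.2 (fun k => ?_))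
      exact ⟨hζ.1, Ag.refl _ _, fun h => lt_irrefl _ h.1⟩
    · intro hs
      have h1 : ∀ ζ, ζ ≤ t.lv → ¬ Lim ζ → ∀ k, s ∈ NN t ζ k := fun ζ h2 h3 k =>
        mem_iInter.1 (mem_iInter₂.1 hs ζ ⟨h2, h3⟩) k
      have h2 : Ag t.lv t.f s.f := by
        intro ξ hξ
        exact (h1 (sc ξ) (sc_le hξ) (not_lim_sc ξ) 0).2.1 ξ (lt_sc ξ)
      have h3 : t.lv ≤ s.lv := by
        by_contra h4
        rw [not_le] at h4
        have h5 := (h1 (sc s.lv) (sc_le h4) (not_lim_sc _) 0).1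
        exact absurd (lt_sc s.lv) (not_lt.2 h5)
      rcases h3.eq_or_lt with h4 | h4
      · exact (Nod.ext' h4 h2).symm
      · obtain ⟨ζ, hζ⟩ : ∃ ζ, ζ ≤ t.lv ∧ ¬ Lim ζ := by
          by_cases hl : Lim t.lv
          · obtain ⟨β, hβ⟩ := hl.1
            exact ⟨sc β, sc_le hβ, not_lim_sc β⟩
          · exact ⟨t.lv, le_rfl, hl⟩
        exact absurd ⟨h4, h2, Nat.lt_succ_self _⟩ (h1 ζ hζ.1 hζ.2 (s.f t.lv + 1)).2.2
  rw [h]
  refine IsGδ.biInter ((countable_Iic t.lv).mono (fun ζ hζ => hζ.1)) (fun ζ hζ => ?_)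
  exact IsGδ.iInter_of_isOpen (fun k => open_NN t k hζ.1 hζ.2)

instance : T2Space Nod where
  t2 := by
    have key : ∀ s t : Nod, s ≠ t → t.lv ≤ s.lv → ∃ u v : Set Nod, IsOpen u ∧ IsOpen v ∧ s ∈ u ∧
        t ∈ v ∧ Disjoint u v := by
      intro s t hst hle
      by_cases h1 : ∃ η, η < t.lv ∧ t.f η ≠ s.f η
      · obtain ⟨η, h2, h3⟩ := h1
        refine ⟨NN s (sc η) 0, NN t (sc η) 0, open_NN s 0 (sc_le (h2.trans_le hle)) (not_lim_sc η),
          open_NN t 0 (sc_le h2) (not_lim_sc η), ?_, ?_, ?_⟩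
        · exact ⟨sc_le (h2.trans_le hle), Ag.refl _ _, fun h => lt_irrefl _ h.1⟩
        · exact ⟨sc_le h2, Ag.refl _ _, fun h => lt_irrefl _ h.1⟩
        · rw [Set.disjoint_left]
          rintro r ⟨_, h4, _⟩ ⟨_, h5, _⟩
          apply h3
          rw [h5 η (lt_sc η), h4 η (lt_sc η)]
      · push Not at h1
        rcases hle.eq_or_lt with h2 | h2
        · exact absurd (Nod.ext' h2 (fun η hη => h1 η hη)).symm hst
        · obtain ⟨ζ, hζ, hζ2⟩ : ∃ ζ, ζ ≤ t.lv ∧ ¬ Lim ζ := by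
            by_cases hl : Lim t.lv
            · obtain ⟨β, hβ⟩ := hl.1
              exact ⟨sc β, sc_le hβ, not_lim_sc β⟩
            · exact ⟨t.lv, le_rfl, hl⟩
          refine ⟨NN s (sc t.lv) 0, NN t ζ (s.f t.lv + 1), open_NN s 0 (sc_le h2) (not_lim_sc _),
            open_NN t _ hζ hζ2, ?_, ?_, ?_⟩
          · exact ⟨sc_le h2, Ag.refl _ _, fun h => by omega⟩
          · exact ⟨hζ, Ag.refl _ _, fun h => lt_irrefl _ h.1⟩
          · rw [Set.disjoint_left]
            rintro r ⟨h3, h4, _⟩ ⟨_, _, h5⟩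
            apply h5
            refine ⟨(lt_sc _).trans_le h3, ?_, ?_⟩
            · intro η hη
              rw [h1 η hη, h4 η (hη.trans (lt_sc _))]
            · rw [← h4 _ (lt_sc _)]
              exact Nat.lt_succ_self _
    intro s t hst
    rcases le_total t.lv s.lv with h | h
    · exact key s t hst h
    · obtain ⟨u, v, h1, h2, h3, h4, h5⟩ := key t s hst.symm h
      exact ⟨v, u, h2, h1, h4, h3, h5.symm⟩

/-- Membership is determined by the truncation to any level beyond some bound. -/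
def Nice (V : Set Nod) : Prop := ∃ β : W, ∀ δ, β ≤ δ → ∀ s, s ∈ V ↔ trunc δ s ∈ V

lemma nice_atoms (V : ℕ → Set Nod) (hV : ∀ n, Nice (V n)) : ∃ (A : Set Nod) (a : Nod → Nod),
    A.Countable ∧ (∀ x, a x ∈ A) ∧ ∀ n x, x ∈ V n ↔ a x ∈ V n := by
  choose β hβ using hV
  obtain ⟨δ, hδ⟩ := exists_bound (Set.countable_range β)
  exact ⟨{t | t.lv ≤ δ}, trunc δ, levels_countable δ, trunc_lv_le δ,
    fun n x => hβ n δ (hδ _ ⟨n, rfl⟩).le x⟩

/-! ### Every k-cover has a countable refinement by nice sets that captures the finite sets -/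

lemma lind (𝒰 : Set (Set Nod)) (h𝒰 : IsKCover 𝒰) : ∃ V U : ℕ → Set Nod,
    (∀ n, Nice (V n) ∧ V n ⊆ U n ∧ U n ∈ 𝒰) ∧ ∀ E : Set Nod, E.Finite → ∃ n, E ⊆ V n := by
  classical
  -- choice of members and of basic neighbourhoods
  have h1 : ∀ F : Finset Nod, ∃ U ∈ 𝒰, (F : Set Nod) ⊆ U := fun F =>
    h𝒰.2.2 F F.finite_toSet.isCompact
  choose U hU hFU using h1
  have h2 : ∀ (F : Finset Nod) (t : Nod), ∃ ζ : W, ∃ k : ℕ, t ∈ F →
      Adm t.lv ζ ∧ (NN t ζ k \ U F).Countable := by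
    intro F t
    by_cases ht : t ∈ F
    · obtain ⟨ζ, hζ, k, hk⟩ := (isOpen_iff (U F)).1 (h𝒰.1 _ (hU F)) t (hFU F ht)
      exact ⟨ζ, k, fun _ => ⟨hζ, hk⟩⟩
    · exact ⟨Classical.arbitrary W, 0, fun h => absurd h ht⟩
  choose Z k hZ using h2
  -- the exceptional countable sets
  set C : Finset Nod → Set Nod := fun F => ⋃ t ∈ F, (NN t (Z F t) (k F t) \ U F) with hC
  have hCc : ∀ F, (C F).Countable := fun F =>
    F.countable_toSet.biUnion (fun t ht => (hZ F t ht).2)
  set O : Finset Nod → Set Nod :=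
    fun F => {s | s ∈ F ∨ (s ∉ C F ∧ ∃ t ∈ F, s ∈ NN t (Z F t) (k F t))} with hO
  have hOU : ∀ F, O F ⊆ U F := by
    rintro F s (hs | ⟨hs, t, ht, hs2⟩)
    · exact hFU F hs
    · by_contra h
      exact hs (mem_biUnion ht ⟨hs2, h⟩)
  have hOn : ∀ F, Nice (O F) := by
    intro F
    obtain ⟨β, hβ⟩ := exists_bound ((F.countable_toSet.union (hCc F)).image Nod.lv)
    refine ⟨β, fun δ hδ s => ?_⟩
    by_cases hs : s.lv ≤ δ
    · rw [trunc_of_le hs]
    · rw [not_le] at hs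
      have hlv : (trunc δ s).lv = δ := trunc_lv hs.le
      have hag := trunc_ag hs.le
      have e1 : ∀ r ∈ (F : Set Nod) ∪ C F, r.lv < δ := fun r hr =>
        (hβ _ ⟨r, hr, rfl⟩).trans_le hδ
      have h3 : s ∉ F := fun h => lt_asymm hs (e1 s (Or.inl h))
      have h4 : s ∉ C F := fun h => lt_asymm hs (e1 s (Or.inr h))
      have h5 : trunc δ s ∉ F := fun h => (e1 _ (Or.inl h)).ne hlv
      have h6 : trunc δ s ∉ C F := fun h => (e1 _ (Or.inr h)).ne hlv
      have key : ∀ t ∈ F, s ∈ NN t (Z F t) (k F t) ↔ trunc δ s ∈ NN t (Z F t) (k F t) := by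
        intro t ht
        have h7 : t.lv < δ := e1 t (Or.inl ht)
        have h8 : Z F t ≤ t.lv := (hZ F t ht).1.1
        constructor
        · rintro ⟨a, b, c⟩
          refine ⟨h8.trans (h7.le.trans hlv.ge), b.trans (hag.symm.mono (h8.trans h7.le)), ?_⟩
          rintro ⟨-, d, e⟩
          rw [hag _ h7] at e
          exact c ⟨h7.trans hs, d.trans (hag.mono h7.le), e⟩
        · rintro ⟨a, b, c⟩
          refine ⟨h8.trans (h7.trans hs).le, b.trans (hag.mono (h8.trans h7.le)), ?_⟩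
          rintro ⟨-, d, e⟩
          refine c ⟨h7.trans_eq hlv.symm, d.trans (hag.symm.mono h7.le), ?_⟩
          rw [hag _ h7]
          exact e
      constructor
      · rintro (h | ⟨-, t, ht, h⟩)
        · exact absurd h h3
        · exact Or.inr ⟨h6, t, ht, (key t ht).1 h⟩
      · rintro (h | ⟨-, t, ht, h⟩)
        · exact absurd h h5
        · exact Or.inr ⟨h4, t, ht, (key t ht).2 h⟩
  -- the families to be reflected
  set S : ∀ m : ℕ, Finset Nod → W → (Fin m → Nod) → Set (W × (Fin m → Nod)) :=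
    fun m E0 ζ' w => {q | (∀ i, (q.2 i).lv = q.1) ∧ (∀ i, Ag ζ' (w i).f (q.2 i).f) ∧
      ∀ i, Z (E0 ∪ Finset.univ.image q.2) (q.2 i) ≤ ζ'} with hS
  have hK : ∀ (m : ℕ) (E0 : Finset Nod) (ζ' : W) (w : Fin m → Nod), ∃ K : W,
      ∀ q ∈ S m E0 ζ' w, (∀ r ∈ S m E0 ζ' w, r.1 < q.1 → ∃ i, Le (r.2 i) (q.2 i)) → q.1 < K := by
    intro m E0 ζ' w
    obtain ⟨K, hK⟩ := baum m
      {q | q ∈ S m E0 ζ' w ∧ ∀ r ∈ S m E0 ζ' w, r.1 < q.1 → ∃ i, Le (r.2 i) (q.2 i)}
      (fun p hp => hp.1.1) (fun p hp q hq hpq => hq.2 p hp.1 hpq)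
    exact ⟨K, fun q hq hq2 => hK q ⟨hq, hq2⟩⟩
  choose K hK using hK
  have hM : ∀ α : W, ∃ M : W,
      (∀ (m : ℕ) (E0 : Finset Nod) (ζ' : W) (w : Fin m → Nod), (∀ t ∈ E0, t.lv ≤ α) → ζ' ≤ α →
        (∀ i, (w i).lv ≤ α) → K m E0 ζ' w < M) ∧
      ∀ F : Finset Nod, (∀ t ∈ F, t.lv ≤ α) → ∀ s ∈ C F, s.lv < M := by
    intro α
    have : Countable (Iic α) := (countable_Iic α).to_subtype
    have hr1 : (range (fun p : (Σ m : ℕ, Finset {t : Nod // t.lv ≤ α} × (Iic α) ×
        (Fin m → {t : Nod // t.lv ≤ α})) => K p.1 (p.2.1.map (Function.Embedding.subtype _))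
        p.2.2.1 (fun i => (p.2.2.2 i).1))).Countable := countable_range _
    have hr2 : (⋃ F : Finset {t : Nod // t.lv ≤ α},
        Nod.lv '' (C (F.map (Function.Embedding.subtype _)))).Countable :=
      countable_iUnion (fun F => (hCc _).image _)
    obtain ⟨M, hM⟩ := exists_bound (hr1.union hr2)
    refine ⟨M, ?_, ?_⟩
    · intro m E0 ζ' w h1 h2 h3
      apply hM
      left
      refine ⟨⟨m, E0.subtype _, ⟨ζ', h2⟩, fun i => ⟨w i, h3 i⟩⟩, ?_⟩
      simp only
      rw [Finset.subtype_map_of_mem h1]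
    · intro F hF s hs
      apply hM
      right
      refine mem_iUnion.2 ⟨F.subtype _, ?_⟩
      rw [Finset.subtype_map_of_mem hF]
      exact ⟨s, hs, rfl⟩
  choose M hM1 hM2 using hM
  -- a level closed under the bounds
  let d : ℕ → W := fun n => Nat.rec (motive := fun _ => W) (Classical.arbitrary W)
    (fun _ x => max (sc x) (M x)) n
  have hd1 : ∀ n, d n < d (n + 1) := fun n => (lt_sc _).trans_le (le_max_left _ _)
  have hd2 : ∀ n, M (d n) ≤ d (n + 1) := fun n => le_max_right _ _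
  have hdm : Monotone d := monotone_nat_of_le_succ (fun n => (hd1 n).le)
  obtain ⟨b, hb⟩ := exists_bound (Set.countable_range d)
  have hne : {x : W | ∀ n, d n < x}.Nonempty := ⟨b, fun n => hb _ ⟨n, rfl⟩⟩
  set δ := (wellFounded_lt (α := W)).min _ hne with hδ
  have hδ1 : ∀ n, d n < δ := (wellFounded_lt (α := W)).min_mem _ hne
  have hδ2 : ∀ x < δ, ∀ᶠ n in Filter.atTop, x ≤ d n := by
    intro x hx
    by_contra hc
    have h3 : ∀ n, d n < x := by
      intro n
      by_contra h4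
      apply hc
      filter_upwards [Filter.eventually_ge_atTop n] with k hk
      exact (not_lt.1 h4).trans (hdm hk)
    exact (wellFounded_lt (α := W)).not_lt_min {x : W | ∀ n, d n < x} (x := x) h3 hx
  have hlim : Lim δ := by
    refine ⟨⟨_, hδ1 0⟩, fun β hβ => ?_⟩
    obtain ⟨n, hn⟩ := (hδ2 β hβ).exists
    exact (sc_le (hn.trans_lt (hd1 n))).trans_lt (hδ1 (n + 1))
  -- capturing a finite set
  have hcap : ∀ E : Set Nod, E.Finite → ∃ F : Finset Nod, (∀ t ∈ F, t.lv ≤ δ) ∧ E ⊆ O F := by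
    intro E hE
    set E0 := hE.toFinset.filter (fun t => t.lv < δ) with hE0
    set E1 := hE.toFinset.filter (fun t => δ ≤ t.lv) with hE1
    have hE0' : ∀ t ∈ E0, t.lv < δ := fun t ht => (Finset.mem_filter.1 ht).2
    set m := E1.card with hm
    set u : Fin m → Nod := fun i => (E1.equivFin.symm i).1 with hu
    have hu1 : ∀ i, δ ≤ (u i).lv := fun i =>
      (Finset.mem_filter.1 (E1.equivFin.symm i).2).2
    have hu2 : ∀ t ∈ E1, ∃ i, u i = t := by
      intro t ht
      refine ⟨E1.equivFin ⟨t, ht⟩, ?_⟩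
      simp [hu]
    set v : Fin m → Nod := fun i => trunc δ (u i) with hv
    have hv1 : ∀ i, (v i).lv = δ := fun i => trunc_lv (hu1 i)
    have hv2 : ∀ i, Ag δ (v i).f (u i).f := fun i => trunc_ag (hu1 i)
    set Fs := E0 ∪ Finset.univ.image v with hFs
    have hvF : ∀ i, v i ∈ Fs := fun i =>
      Finset.mem_union_right _ (Finset.mem_image_of_mem _ (Finset.mem_univ i))
    have hZ1 : ∀ i, Z Fs (v i) < δ := by
      intro i
      have h3 := (hZ Fs (v i) (hvF i)).1
      rw [hv1] at h3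
      rcases h3.1.eq_or_lt with h4 | h4
      · exact absurd hlim (h3.2 h4)
      · exact h4
    have hev1 : ∀ᶠ n in Filter.atTop, ∀ i, Z Fs (v i) ≤ d n :=
      Filter.eventually_all.2 (fun i => hδ2 _ (hZ1 i))
    have hev2 : ∀ᶠ n in Filter.atTop, ∀ t ∈ E0, t.lv ≤ d n :=
      (Filter.eventually_all_finset E0).2 (fun t ht => hδ2 _ (hE0' t ht))
    obtain ⟨N, hN1, hN2⟩ := (hev1.and hev2).exists
    set w : Fin m → Nod := fun i => trunc (d N) (v i) with hw
    have hdv : ∀ i, d N ≤ (v i).lv := fun i => (hδ1 N).le.trans_eq (hv1 i).symm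
    have hw1 : ∀ i, (w i).lv = d N := fun i => trunc_lv (hdv i)
    have hw2 : ∀ i, Ag (d N) (w i).f (v i).f := fun i => trunc_ag (hdv i)
    have hmem : (δ, v) ∈ S m E0 (d N) w := ⟨hv1, hw2, hN1⟩
    have hKδ : K m E0 (d N) w < δ :=
      (hM1 (d N) m E0 (d N) w hN2 le_rfl (fun i => (hw1 i).le)).trans ((hd2 N).trans_lt
        (hδ1 (N + 1)))
    obtain ⟨r, hr, hr1, hr2⟩ : ∃ r ∈ S m E0 (d N) w, r.1 < δ ∧ ∀ i, ¬ Le (r.2 i) (v i) := by
      by_contra hcon
      push Not at hcon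
      exact absurd (hK m E0 (d N) w (δ, v) hmem hcon) (not_lt.2 hKδ.le)
    set F := E0 ∪ Finset.univ.image r.2 with hF
    have hrF : ∀ i, r.2 i ∈ F := fun i =>
      Finset.mem_union_right _ (Finset.mem_image_of_mem _ (Finset.mem_univ i))
    have hFlv : ∀ t ∈ F, t.lv < δ := by
      intro t ht
      rcases Finset.mem_union.1 ht with h3 | h3
      · exact hE0' t h3
      · obtain ⟨i, -, rfl⟩ := Finset.mem_image.1 h3
        rw [hr.1 i]
        exact hr1
    obtain ⟨N', hN'⟩ := ((Filter.eventually_all_finset F).2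
      (fun t ht => hδ2 _ (hFlv t ht))).exists
    have hCF : ∀ s ∈ C F, s.lv < δ := fun s hs =>
      (hM2 (d N') F hN' s hs).trans ((hd2 N').trans_lt (hδ1 (N' + 1)))
    refine ⟨F, fun t ht => (hFlv t ht).le, ?_⟩
    intro x hx
    by_cases hxδ : x.lv < δ
    · left
      exact Finset.mem_union_left _ (Finset.mem_filter.2 ⟨hE.mem_toFinset.2 hx, hxδ⟩)
    · right
      rw [not_lt] at hxδ
      refine ⟨fun h => absurd (hCF x h) (not_lt.2 hxδ), ?_⟩
      obtain ⟨i, rfl⟩ := hu2 x (Finset.mem_filter.2 ⟨hE.mem_toFinset.2 hx, hxδ⟩)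
      refine ⟨r.2 i, hrF i, ?_, ?_, ?_⟩
      · exact (hr.2.2 i).trans ((hδ1 N).le.trans hxδ)
      · have h3 : Ag (d N) (r.2 i).f (u i).f :=
          (hr.2.1 i).symm.trans ((hw2 i).trans ((hv2 i).mono (hδ1 N).le))
        exact h3.mono (hr.2.2 i)
      · rintro ⟨-, h3, -⟩
        apply hr2 i
        have h4 : (r.2 i).lv < δ := by
          rw [hr.1 i]
          exact hr1
        exact ⟨h4.le.trans_eq (hv1 i).symm, h3.trans ((hv2 i).symm.mono h4.le)⟩
  obtain ⟨e, he⟩ := exists_surjective_nat (Finset {t : Nod // t.lv ≤ δ})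
  refine ⟨fun n => O ((e n).map (Function.Embedding.subtype _)),
    fun n => U ((e n).map (Function.Embedding.subtype _)), fun n => ⟨hOn _, hOU _, hU _⟩, ?_⟩
  intro E hE
  obtain ⟨F, hF, hEF⟩ := hcap E hE
  obtain ⟨n, hn⟩ := he (F.subtype _)
  refine ⟨n, ?_⟩
  simp only
  rw [hn, Finset.subtype_map_of_mem hF]
  exact hEF

theorem result : ∃ (X : Type) (_ : TopologicalSpace X), T2Space X ∧ ¬ P1Wins X ∧ ¬ P2Wins X :=
  ⟨Nod, instTop, inferInstance,
    not_p1Wins (fun _ h => compact_finite h) Nice nice_atoms lind,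
    not_p2Wins (fun _ h => compact_finite h) isGδ_singleton' nod_uncountable⟩

end Pool.Agent.Results.MP_367a9a_gt.AronszajnUndetermined
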